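import Mathlib
import Pool.Agent.H.MP_811251_al.Q

set_option autoImplicit false

namespace Pool.Agent.H.MP_6756f0_al

open TensorProduct ExteriorAlgebra Pool.Agent.H.MP_7e1e73_al Pool.Agent.H.MP_811251_al MvPolynomial

variable {k : Type} [Field k] {n : ℕ}

section gen

variable {R : Type} [CommRing R] [Algebra k R] (x : Fin n → R)

lemma dl_deg {V : Type} [AddCommGroup V] [Module k V] (φ : Module.Dual k V) :
    ∀ (i : ℕ) {a : Ex k V}, a ∈ L1 k V ^ (i + 1) → dl φ a ∈ L1 k V ^ i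
  | 0, a, h => by
    rw [zero_add, pow_one] at h
    obtain ⟨v, rfl⟩ := h
    rw [dl_ι, pow_zero]
    exact Submodule.algebraMap_mem _
  | i + 1, a, h => by
    rw [pow_succ'] at h
    refine Submodule.mul_induction_on h ?_ fun a b ha hb => by rw [map_add]; exact add_mem ha hb
    rintro _ ⟨v, rfl⟩ c hc
    rw [dl_mul]
    refine sub_mem (Submodule.smul_mem _ _ hc) ?_
    rw [pow_succ']
    exact Submodule.mul_mem_mul ⟨v, rfl⟩ (dl_deg φ i hc)

lemma kd_deg {i : ℕ} {z : Kz k R n} (h : z ∈ Kdeg k R n (i + 1)) : kd k x z ∈ Kdeg k R n i :=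
  Kind (p := fun z => kd k x z ∈ Kdeg k R n i) h (fun r a ha => by
    rw [kd_tmul]; exact sum_mem fun j _ => tmul_mem _ (dl_deg _ i ha))
    fun _ _ h1 h2 => by rw [map_add]; exact add_mem h1 h2

lemma dl_dl {V : Type} [AddCommGroup V] [Module k V] (φ : Module.Dual k V) (a : Ex k V) :
    dl φ (dl φ a) = 0 := CliffordAlgebra.contractLeft_contractLeft φ a

lemma dl_comm {V : Type} [AddCommGroup V] [Module k V] (φ ψ : Module.Dual k V) (a : Ex k V) :
    dl φ (dl ψ a) = -dl ψ (dl φ a) := CliffordAlgebra.contractLeft_comm φ ψ a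

lemma kd_kd (z : Kz k R n) : kd k x (kd k x z) = 0 := by
  induction z using TensorProduct.induction_on with
  | zero => simp
  | add a b ha hb => simp only [map_add, ha, hb, add_zero]
  | tmul r a =>
    simp only [kd_tmul, map_sum, ← Finset.sum_product']
    refine Finset.sum_involution (fun p _ => p.swap) (fun p _ => ?_) (fun p _ h e => h ?_) (by simp) (by simp)
    · rw [dl_comm, tmul_neg, mul_left_comm]; simp
    · rw [show p.1 = p.2 from (congrArg Prod.fst e).symm, dl_dl, tmul_zero]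

theorem golod_zero (A : Ideal R) (hA : A * A = ⊥)
    (H1 : ∀ i, 1 ≤ i → ∀ z ∈ Kdeg k R n i, kd k x z = 0 →
      ∃ w ∈ Kdeg k R n i, w ∈ A • (⊤ : Submodule R (Kz k R n)) ∧ ∃ t, z = w + kd k x t) :
    Golod k x := by
  let B := {p : ℕ × Kz k R n // 1 ≤ p.1 ∧ p.2 ∈ Kdeg k R n p.1 ∧
    p.2 ∈ A • (⊤ : Submodule R (Kz k R n)) ∧ kd k x p.2 = 0}
  let μ : List B → Kz k R n := fun l => match l with
    | [b] => b.1.2
    | _ => 0
  have m1 : ∀ l, μ l ∈ A • (⊤ : Submodule R (Kz k R n)) ∧ kd k x (μ l) = 0 ∧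
      μ l ∈ Kdeg k R n (wt (fun b : B => b.1.1) l - 1) := fun l => match l with
    | [] => by simp [μ]
    | [b] => ⟨b.2.2.2.1, b.2.2.2.2, by simpa [wt] using b.2.2.1⟩
    | _ :: _ :: _ => by simp [μ]
  have m2 : ∀ a ∈ A • (⊤ : Submodule R (Kz k R n)), ∀ b ∈ A • (⊤ : Submodule R (Kz k R n)), a * b = 0 :=
    fun a ha b hb => Submodule.smul_induction_on (p := fun a => a * b = 0) ha (fun r hr a _ =>
      Submodule.smul_induction_on (p := fun b => r • a * b = 0) hb (fun s hs b _ => by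
        rw [smul_mul_smul_comm, show r * s = 0 from hA.le (Ideal.mul_mem_mul hr hs), zero_smul])
        fun _ _ h1 h2 => by rw [mul_add, h1, h2, add_zero])
      fun _ _ h1 h2 => by rw [add_mul, h1, h2, add_zero]
  rw [Golod, kd_eq]
  refine ⟨B, fun b => b.1.1, μ, fun b => b.2.1, fun l _ => (m1 l).2.2, fun l _ => ?_, fun i hi z hz h => ?_⟩
  · simp [(m1 l).2.1, m2 _ (m1 _).1 _ (m1 _).1]
  obtain ⟨w, h1, h2, t, rfl⟩ := H1 i hi z hz h
  exact ⟨w, Submodule.subset_span ⟨⟨(i, w), hi, h1, h2, by simpa [kd_kd] using h⟩, rfl⟩, t, rfl⟩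

lemma kd_mul {b : Kz k R n} (hb : kd k x b = 0) (a : Kz k R n) : kd k x (a * b) = kd k x a * b := by
  induction a using TensorProduct.induction_on with
  | zero => simp
  | add a c ha hc => simp only [add_mul, map_add, ha, hc]
  | tmul r a =>
    induction a using DirectSum.Decomposition.inductionOn fun i => ⋀[k]^i (Fin n → k) with
    | zero => simp
    | homogeneous a => rw [leib x (tmul_mem r a.2), hb]; simp
    | add a c ha hc => simp only [tmul_add, add_mul, map_add, ha, hc]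

/-- In a Golod ring products of cycles of positive degree are boundaries. -/
theorem prod_bd (G : Golod k x) {i j : ℕ} (hi : 1 ≤ i) (hj : 1 ≤ j) {u v : Kz k R n} (hu : u ∈ Kdeg k R n i)
    (hv : v ∈ Kdeg k R n j) (du : kd k x u = 0) (dv : kd k x v = 0) : u * v ∈ LinearMap.range (kd k x) := by
  rw [Golod, kd_eq] at G
  obtain ⟨B, deg, μ, -, h1, h2, h3⟩ := G
  obtain ⟨w, hw, t, rfl⟩ := h3 i hi u hu du
  rw [add_mul]
  refine add_mem ?_ ⟨_, kd_mul x dv t⟩
  obtain ⟨w', hw', t', rfl⟩ := h3 j hj v hv dv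
  clear hu du
  induction hw using Submodule.span_induction with
  | zero => simp
  | add a b _ _ ha hb => rw [add_mul]; exact add_mem ha hb
  | smul c a _ ha => rw [smul_mul_assoc]; exact Submodule.smul_of_tower_mem _ _ ha
  | mem a ha =>
    obtain ⟨b, rfl⟩ := ha
    rw [mul_add]
    refine add_mem ?_ ?_
    · clear hv dv
      induction hw' using Submodule.span_induction with
      | zero => simp
      | add a b _ _ ha hb => rw [mul_add]; exact add_mem ha hb
      | smul c a _ ha => rw [mul_smul_comm]; exact Submodule.smul_of_tower_mem _ _ ha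
      | mem a ha =>
        obtain ⟨c, rfl⟩ := ha
        refine ⟨(-1 : R) ^ wt deg [b] • μ [b, c], ?_⟩
        rw [map_smul, h2 _ (by simp)]
        simp [sgn, smul_smul, ← mul_pow]
    · refine ⟨(-1 : R) ^ (wt deg [b] - 1) • (μ [b] * t'), ?_⟩
      rw [map_smul, leib x (h1 [b] (by simp)), h2 _ (by simp)]
      simp [smul_smul, ← mul_pow]

end gen

/-- The generators of the exterior algebra. -/
noncomputable def ee (k : Type) [Field k] (p : Fin n) : Ex k (Fin n → k) := ι k (Pi.single p 1)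

lemma dl_ee (p q : Fin n) (a : Ex k (Fin n → k)) :
    dl (LinearMap.proj q) (ee k p * a) = (if q = p then a else 0) - ee k p * dl (LinearMap.proj q) a := by
  rw [ee, dl_mul]; simp [Pi.single_apply]

lemma ee_mem (p : Fin n) {i : ℕ} {a : Ex k (Fin n → k)} (h : a ∈ L1 k (Fin n → k) ^ i) :
    ee k p * a ∈ L1 k (Fin n → k) ^ (i + 1) := by
  rw [pow_succ']; exact Submodule.mul_mem_mul ⟨_, rfl⟩ h

lemma Lind {i : ℕ} {P : Ex k (Fin n → k) → Prop} {a : Ex k (Fin n → k)} (h : a ∈ L1 k (Fin n → k) ^ (i + 1))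
    (h0 : P 0) (h1 : ∀ p, ∀ b ∈ L1 k (Fin n → k) ^ i, P (ee k p * b)) (h2 : ∀ a b, P a → P b → P (a + b)) :
    P a := by
  rw [pow_succ'] at h
  refine Submodule.mul_induction_on h ?_ h2
  rintro _ ⟨v, rfl⟩ c hc
  rw [pi_eq_sum_univ' v, map_sum, Finset.sum_mul]
  refine Finset.sum_induction _ _ h2 h0 fun p _ => ?_
  rw [map_smul, smul_mul_assoc, ← mul_smul_comm]
  exact h1 p _ (Submodule.smul_mem _ _ hc)

/-- The span of monomials tensor elements of `T`. -/
noncomputable def W (φ : (Fin n →₀ ℕ) → Prop) (T : Submodule k (Ex k (Fin n → k))) :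
    Submodule k (Kz k (MvPolynomial (Fin n) k) n) :=
  Submodule.span k {z | ∃ m, ∃ a ∈ T, φ m ∧ z = monomial m (1 : k) ⊗ₜ a}

lemma W_gen {φ : (Fin n →₀ ℕ) → Prop} {T : Submodule k (Ex k (Fin n → k))} {m : Fin n →₀ ℕ}
    {a : Ex k (Fin n → k)} (h : φ m) (ha : a ∈ T) : monomial m (1 : k) ⊗ₜ a ∈ W φ T :=
  Submodule.subset_span ⟨m, a, ha, h, rfl⟩

lemma W_tmul {φ : (Fin n →₀ ℕ) → Prop} {T : Submodule k (Ex k (Fin n → k))} {r : MvPolynomial (Fin n) k}
    {a : Ex k (Fin n → k)} (h : ∀ m ∈ r.support, φ m) (ha : a ∈ T) : r ⊗ₜ a ∈ W φ T := by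
  rw [r.as_sum, sum_tmul]
  refine sum_mem fun m hm => ?_
  rw [← mul_one (coeff m r), ← smul_eq_mul, map_smul, ← smul_tmul']
  exact Submodule.smul_mem _ _ (W_gen (h m hm) ha)

lemma W_map {φ : (Fin n →₀ ℕ) → Prop} {T : Submodule k (Ex k (Fin n → k))} {M : Type} [AddCommGroup M]
    [Module k M] (f : Kz k (MvPolynomial (Fin n) k) n →ₗ[k] M) (N : Submodule k M)
    (h : ∀ m, ∀ a ∈ T, φ m → f (monomial m (1 : k) ⊗ₜ a) ∈ N) {z : Kz k (MvPolynomial (Fin n) k) n}
    (hz : z ∈ W φ T) : f z ∈ N :=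
  (Submodule.span_le (p := N.comap f)).2 (by rintro _ ⟨m, a, ha, h1, rfl⟩; exact h m a ha h1) hz

lemma K_map {i : ℕ} {M : Type} [AddCommGroup M]
    [Module k M] (f : Kz k (MvPolynomial (Fin n) k) n →ₗ[k] M) (N : Submodule k M)
    (h : ∀ m, ∀ a ∈ L1 k (Fin n → k) ^ i, f (monomial m (1 : k) ⊗ₜ a) ∈ N) {z : Kz k (MvPolynomial (Fin n) k) n}
    (hz : z ∈ Kdeg k _ n i) : f z ∈ N :=
  W_map (φ := fun _ => True) f N (fun m a ha _ => h m a ha)
    (Kind (p := fun z => z ∈ W (fun _ => True) _) hz (fun _ _ ha => W_tmul (fun _ _ => trivial) ha)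
      fun _ _ => add_mem)

/-- A linear map given on monomials. -/
noncomputable def op (g : (Fin n →₀ ℕ) → (Fin n →₀ ℕ)) (f : (Fin n →₀ ℕ) → Module.End k (Ex k (Fin n → k))) :
    Module.End k (Kz k (MvPolynomial (Fin n) k) n) :=
  TensorProduct.lift ((basisMonomials (Fin n) k).constr k fun m =>
    TensorProduct.mk k _ _ (monomial (g m) (1 : k)) ∘ₗ f m)

lemma op_gen (g : (Fin n →₀ ℕ) → (Fin n →₀ ℕ)) (f : (Fin n →₀ ℕ) → Module.End k (Ex k (Fin n → k)))
    (m : Fin n →₀ ℕ) (a : Ex k (Fin n → k)) :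
    op g f (monomial m (1 : k) ⊗ₜ a) = monomial (g m) (1 : k) ⊗ₜ f m a := by
  have := (basisMonomials (Fin n) k).constr_basis k (fun m =>
    TensorProduct.mk k _ _ (monomial (g m) (1 : k)) ∘ₗ f m) m
  rw [coe_basisMonomials] at this
  rw [op, lift.tmul, this]; rfl

/-- The homotopy. -/
noncomputable def HH (k : Type) [Field k] (a : ℕ) (p : Fin n) : Module.End k (Kz k (MvPolynomial (Fin n) k) n) :=
  op (fun m => m - Finsupp.single p 1) fun m => if m p ≠ 0 ∧ m p ≠ a then LinearMap.mulLeft k (ee k p) else 0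

noncomputable def sg (k : Type) [Field k] (a : ℕ) (p : Fin n) (m : Fin n →₀ ℕ) :
    Module.End k (Ex k (Fin n → k)) :=
  (if m p ≠ 0 ∧ m p ≠ a then 0 else dl (LinearMap.proj p) ∘ₗ LinearMap.mulLeft k (ee k p)) +
    if m p + 1 = a then LinearMap.mulLeft k (ee k p) ∘ₗ dl (LinearMap.proj p) else 0

noncomputable def rh (k : Type) [Field k] (a : ℕ) (p : Fin n) : Module.End k (Kz k (MvPolynomial (Fin n) k) n) :=
  op id (sg k a p)

/-- The differential over the polynomial ring. -/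
noncomputable abbrev dS (k : Type) [Field k] (n : ℕ) : Module.End k (Kz k (MvPolynomial (Fin n) k) n) :=
  (kd k X).restrictScalars k

lemma homot (a : ℕ) (p : Fin n) (z : Kz k (MvPolynomial (Fin n) k) n) :
    rh k a p z = z - dS k n (HH k a p z) - HH k a p (dS k n z) := by
  have : z ∈ W (fun _ => True) ⊤ := by
    induction z using TensorProduct.induction_on with
    | zero => simp
    | add a b ha hb => exact add_mem ha hb
    | tmul r a => exact W_tmul (fun _ _ => trivial) trivial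
  have := W_map (rh k a p - (1 - dS k n * HH k a p - HH k a p * dS k n)) ⊥ (fun m b _ _ => ?_) this
  · exact sub_eq_zero.1 this
  simp only [rh, HH, op_gen, LinearMap.sub_apply, LinearMap.add_apply, Module.End.mul_apply, Module.End.one_apply, dS,
    LinearMap.restrictScalars_apply, kd_tmul, map_sum, X, monomial_mul, mul_one, id, Submodule.mem_bot,
    sub_eq_zero, sub_sub, ← Finset.sum_add_distrib]
  rw [Finset.sum_eq_single p (fun q _ hq => ?_) (by simp)]
  · have e : dl (LinearMap.proj p) (ee k p * b) + ee k p * dl (LinearMap.proj p) b = b := by simp [dl_ee]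
    rw [add_tsub_cancel_left, eq_sub_iff_add_eq]
    conv_rhs => rw [← e]
    by_cases h : m p ≠ 0 ∧ m p ≠ a
    · rw [add_tsub_cancel_of_le (Finsupp.single_le_iff.2 (by omega))]
      by_cases h' : m p + 1 = a <;> simp [sg, h, h', ← tmul_add, add_comm 1, add_comm (ee k p * _)]
    · by_cases h' : m p + 1 = a <;> simp [sg, h, h', ← tmul_add, add_comm 1]
  · by_cases h : m p ≠ 0 ∧ m p ≠ a
    · rw [add_tsub_assoc_of_le (Finsupp.single_le_iff.2 (by omega))]
      simp [h, hq, Ne.symm hq, dl_ee, tmul_neg]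
    · simp [h, Ne.symm hq]

lemma rh_d (a : ℕ) (p : Fin n) (z : Kz k (MvPolynomial (Fin n) k) n) :
    dS k n (rh k a p z) = rh k a p (dS k n z) := by
  simp [homot, dS, kd_kd]

lemma sg_deg (a : ℕ) (p : Fin n) (m : Fin n →₀ ℕ) {i : ℕ} {b : Ex k (Fin n → k)}
    (h : b ∈ L1 k (Fin n → k) ^ (i + 1)) : sg k a p m b ∈ L1 k (Fin n → k) ^ (i + 1) := by
  have h1 := dl_deg (LinearMap.proj p) _ (ee_mem p h)
  have h2 := ee_mem p (dl_deg (LinearMap.proj p) _ h)
  simp only [sg, LinearMap.add_apply]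
  refine add_mem ?_ ?_ <;> split_ifs <;> simp [h1, h2]

/-- The composite over a list of variables. -/
noncomputable def rl (k : Type) [Field k] (a : ℕ) (l : List (Fin n)) :
    Module.End k (Kz k (MvPolynomial (Fin n) k) n) := (l.map (rh k a)).prod

lemma red {φ ψ : (Fin n →₀ ℕ) → Prop} (a : ℕ)
    (hD : ∀ m p, φ m → m p ≠ 0 → m p ≠ a → ψ (m - Finsupp.single p 1)) {i : ℕ}
    {z : Kz k (MvPolynomial (Fin n) k) n} (hz : z ∈ Kdeg k _ n (i + 1)) (h : dS k n z ∈ W φ ⊤) :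
    ∀ l, rl k a l z ∈ Kdeg k _ n (i + 1) ∧ dS k n (rl k a l z) ∈ W φ ⊤ ∧
      ∃ t ∈ Kdeg k _ n (i + 2), z - rl k a l z - dS k n t ∈ W ψ ⊤
  | [] => ⟨hz, h, 0, zero_mem _, by simp [rl]⟩
  | p :: l => by
    obtain ⟨h1, h2, t, h3, h4⟩ := red a hD hz h l
    have e : rl k a (p :: l) z = rh k a p (rl k a l z) := by simp [rl]
    rw [e, rh_d]
    refine ⟨K_map (rh k a p) ((Kdeg k _ n (i + 1)).restrictScalars k) (fun m b hb => ?_) h1,
      W_map _ _ (fun m b _ hm => ?_) h2, t + HH k a p (rl k a l z),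
      add_mem h3 (K_map (HH k a p) ((Kdeg k _ n (i + 2)).restrictScalars k) (fun m b hb => ?_) h1), ?_⟩
    · rw [rh, op_gen]; exact tmul_mem _ (sg_deg a p m hb)
    · rw [rh, op_gen]; exact W_gen hm trivial
    · rw [HH, op_gen]; refine tmul_mem _ ?_
      split_ifs <;> simp [ee_mem p hb]
    · have := W_map (HH k a p) (W ψ ⊤) (fun m b _ hm => ?_) h2
      · convert add_mem h4 this using 1
        rw [homot, map_add]; abel
      rw [HH, op_gen]
      split_ifs with h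
      · exact W_gen (hD m p hm h.1 h.2) trivial
      · simp

lemma kill (a : ℕ) (t : Fin n) (m : Fin n →₀ ℕ) {b : Ex k (Fin n → k)} (hb : ee k t * b = 0) :
    ∀ l, ∃ c, ee k t * c = 0 ∧ rl k a l (monomial m (1 : k) ⊗ₜ b) = monomial m (1 : k) ⊗ₜ c ∧
      (t ∈ l → m t + 1 ≠ a → c = 0)
  | [] => ⟨b, hb, rfl, by simp⟩
  | p :: l => by
    obtain ⟨c, h1, h2, h3⟩ := kill a t m hb l
    have e1 : ee k t * (ee k p * dl (LinearMap.proj p) c) = 0 := by
      by_cases h : p = t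
      · rw [h, ← mul_assoc, ee, ι_sq_zero, zero_mul]
      · have := dl_ee t p c
        rw [h1, if_neg h, map_zero, zero_sub, eq_comm, neg_eq_zero] at this
        rw [ee, ee, swap', ← ee, ← ee, this]; simp
    refine ⟨sg k a p m c, ?_, by simp [rl] at h2 ⊢; rw [h2, rh, op_gen]; rfl, fun h4 h5 => ?_⟩
    · simp only [sg, LinearMap.add_apply, mul_add]
      split_ifs <;> simp [dl_ee, mul_sub, h1, e1]
    · rcases List.mem_cons.1 h4 with rfl | h4
      · simp only [sg, LinearMap.add_apply]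
        split_ifs <;> simp [h1]
      · simp [h3 h4 h5]

lemma ee_ee (t : Fin n) (b : Ex k (Fin n → k)) : ee k t * (ee k t * b) = 0 := by
  rw [← mul_assoc, ee, ι_sq_zero, zero_mul]

lemma red0 {φ ψ : (Fin n →₀ ℕ) → Prop} (hD : ∀ m p, φ m → m p ≠ 0 → ψ (m - Finsupp.single p 1)) {i : ℕ}
    {z : Kz k (MvPolynomial (Fin n) k) n} (hz : z ∈ Kdeg k _ n (i + 1)) (h : dS k n z ∈ W φ ⊤) :
    ∃ t ∈ Kdeg k _ n (i + 2), z - dS k n t ∈ W ψ ⊤ := by
  obtain ⟨-, -, t, h1, h2⟩ := red 0 (fun m p h1 h2 _ => hD m p h1 h2) hz h (List.finRange n)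
  refine ⟨t, h1, ?_⟩
  have : rl k 0 (List.finRange n) z ∈ (⊥ : Submodule k _) := K_map _ _ (fun m b hb =>
    Lind (P := fun b => rl k 0 (List.finRange n) (monomial m (1 : k) ⊗ₜ b) ∈ (⊥ : Submodule k _)) hb (by simp)
      (fun p c _ => by
        obtain ⟨c, -, e, h⟩ := kill 0 p m (ee_ee p c) (List.finRange n)
        simp [e, h])
      fun _ _ h1 h2 => by rw [tmul_add, map_add]; exact add_mem h1 h2) hz
  simpa [show rl k 0 (List.finRange n) z = 0 from this] using h2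

lemma red2 {φ ψ : (Fin n →₀ ℕ) → Prop} (a : ℕ)
    (hD : ∀ m p, φ m → m p ≠ 0 → m p ≠ a → ψ (m - Finsupp.single p 1))
    (hT : ∀ (m : Fin n →₀ ℕ) p q, p ≠ q → m p + 1 = a → m q + 1 = a → ψ m) {i : ℕ}
    {z : Kz k (MvPolynomial (Fin n) k) n} (hz : z ∈ Kdeg k _ n (i + 2)) (h : dS k n z ∈ W φ ⊤) :
    ∃ t ∈ Kdeg k _ n (i + 3), z - dS k n t ∈ W ψ ⊤ := by
  obtain ⟨-, -, t, h1, h2⟩ := red a hD hz h (List.finRange n)
  refine ⟨t, h1, ?_⟩
  have : rl k a (List.finRange n) z ∈ W ψ ⊤ := K_map _ _ (fun m b hb =>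
    Lind (P := fun b => rl k a (List.finRange n) (monomial m (1 : k) ⊗ₜ b) ∈ W ψ ⊤) hb (by simp)
      (fun p c hc => Lind (P := fun c => rl k a (List.finRange n) (monomial m (1 : k) ⊗ₜ (ee k p * c)) ∈ W ψ ⊤)
        hc (by simp) (fun q c _ => by
          by_cases e : p = q
          · simp [e, ee_ee]
          obtain ⟨c1, -, e1, h1⟩ := kill a p m (ee_ee p (ee k q * c)) (List.finRange n)
          obtain ⟨c2, -, e2, h2⟩ := kill a q m (b := ee k p * (ee k q * c))
            (by rw [ee, ee, swap', ← ee, ← ee, ee_ee]; simp) (List.finRange n)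
          by_cases f1 : m p + 1 = a
          · by_cases f2 : m q + 1 = a
            · rw [e1]; exact W_gen (hT m p q e f1 f2) trivial
            · simp [e2, h2, f2]
          · simp [e1, h1, f1])
        fun _ _ h1 h2 => by rw [mul_add, tmul_add, map_add]; exact add_mem h1 h2)
      fun _ _ h1 h2 => by rw [tmul_add, map_add]; exact add_mem h1 h2) hz
  convert add_mem h2 this using 1
  abel

lemma red1 {φ ψ : (Fin n →₀ ℕ) → Prop} (hD : ∀ m, φ m → ∃ p, m p ≠ 0 ∧ ψ (m - Finsupp.single p 1))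
    {z : Kz k (MvPolynomial (Fin n) k) n} (hz : z ∈ Kdeg k _ n 1) (h : dS k n z ∈ W φ ⊤) :
    ∃ t ∈ Kdeg k _ n 2, z - dS k n t ∈ W ψ ⊤ := by
  let pr : Module.End k (Kz k (MvPolynomial (Fin n) k) n) :=
    (Algebra.linearMap k _ ∘ₗ (algebraMapInv (M := Fin n → k)).toLinearMap).lTensor _
  have h1 := W_map pr ((W ψ ⊤ ⊓ (Kdeg k _ n 1).restrictScalars k).map (dS k n)) (fun m b _ hm => ?_) h
  · obtain ⟨w, ⟨h2, h3⟩, h4⟩ := h1
    have h5 := K_map (pr - 1) ⊥ (fun m b hb => ?_) (kd_deg X hz)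
    · obtain ⟨t, h6, h7⟩ := red0 (φ := fun _ => False) (ψ := ψ) (by simp) (sub_mem hz h3)
        (by rw [map_sub, h4, ← neg_mem_iff, neg_sub]; exact bot_le (a := W _ ⊤) h5)
      exact ⟨t, h6, by convert add_mem h7 h2 using 1; abel⟩
    rw [pow_zero] at hb
    obtain ⟨c, rfl⟩ := Submodule.mem_one.1 hb
    simp [pr]
  obtain ⟨p, h1, h2⟩ := hD m hm
  refine ⟨_ ⊗ₜ (ee k p * algebraMap k _ (algebraMapInv b)), ⟨W_gen h2 trivial,
    tmul_mem _ (ee_mem p (i := 0) (by simp))⟩, ?_⟩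
  simp only [dS, LinearMap.restrictScalars_apply, kd_tmul, dl_ee, dl_alg, X, monomial_mul]
  rw [Finset.sum_eq_single p (fun q _ hq => by simp [hq]) (by simp),
    add_tsub_cancel_of_le (Finsupp.single_le_iff.2 (by omega))]
  simp [pr]

theorem golod_W {R : Type} [CommRing R] [Algebra k R] (f : MvPolynomial (Fin n) k →ₐ[k] R)
    (hf : Function.Surjective f) {φ ψ : (Fin n →₀ ℕ) → Prop}
    (hI : ∀ r, f r = 0 → ∀ m ∈ r.support, φ m) (hA : ∀ m m', ψ m → ψ m' → f (monomial (m + m') 1) = 0)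
    (H : ∀ i, ∀ z ∈ Kdeg k _ n (i + 1), dS k n z ∈ W φ ⊤ → ∃ t ∈ Kdeg k _ n (i + 2), z - dS k n t ∈ W ψ ⊤) :
    Golod k fun j => f (X j) := by
  let π : Kz k (MvPolynomial (Fin n) k) n →ₗ[k] Kz k R n := f.toLinearMap.rTensor _
  have p1 : ∀ r a, π (r ⊗ₜ a) = f r ⊗ₜ a := fun _ _ => rfl
  have p2 : ∀ z, π (dS k n z) = kd k (fun j => f (X j)) (π z) := fun z => by
    induction z using TensorProduct.induction_on with
    | zero => simp
    | add a b ha hb => simp only [map_add, ha, hb]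
    | tmul r a => simp [kd_tmul, p1]
  refine golod_zero _ (Ideal.span {r | ∃ m, ψ m ∧ r = f (monomial m 1)}) ?_ fun i hi z hz h => ?_
  · rw [Ideal.span_mul_span, Ideal.span_eq_bot]
    rintro _ ⟨_, ⟨m, h1, rfl⟩, _, ⟨m', h2, rfl⟩, rfl⟩
    simpa [← map_mul] using hA m m' h1 h2
  obtain ⟨i, rfl⟩ := Nat.exists_eq_add_of_le' hi
  obtain ⟨y, hy, rfl⟩ := Kind (p := fun z => ∃ y ∈ Kdeg k _ n (i + 1), π y = z) hz (fun r a ha => by
    obtain ⟨r, rfl⟩ := hf r
    exact ⟨_, tmul_mem r ha, rfl⟩) (by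
      rintro _ _ ⟨a, ha, rfl⟩ ⟨b, hb, rfl⟩
      exact ⟨_, add_mem ha hb, map_add _ _ _⟩)
  obtain ⟨t, h1, h2⟩ := H i y hy (by
    obtain ⟨u, hu⟩ := (rTensor_exact (Ex k (Fin n → k)) f.toLinearMap.exact_subtype_ker_map hf _).1
      ((p2 y).trans h)
    rw [← hu]
    clear hu
    induction u using TensorProduct.induction_on with
    | zero => simp
    | add a b ha hb => rw [map_add]; exact add_mem ha hb
    | tmul r a => exact W_tmul (hI r r.2) trivial)
  refine ⟨π (y - dS k n t), K_map π ((Kdeg k _ n (i + 1)).restrictScalars k) (fun m b hb => tmul_mem _ hb)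
    (sub_mem hy (kd_deg X h1)), (Submodule.restrictScalars_mem k _ _).1 (W_map π _ (fun m b _ hm => ?_) h2),
    π t, by simp [← p2]⟩
  rw [p1, ← mul_one (f _), ← smul_eq_mul, ← smul_tmul', Submodule.restrictScalars_mem]
  exact Submodule.smul_mem_smul (Ideal.subset_span ⟨m, hm, rfl⟩) trivial

end Pool.Agent.H.MP_6756f0_al
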